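import Mathlib

set_option autoImplicit false

namespace Pool.Agent.Results.MP_1596c6_nt.Slow

def w (α β a₁ a₂ : ℕ) : ℕ → ℕ
  | 0 => 0
  | 1 => a₁
  | 2 => a₂
  | k + 3 => α * w α β a₁ a₂ (k + 2) + β * w α β a₁ a₂ (k + 1)

noncomputable def s (p : ℕ × ℕ) (n : ℕ) : ℕ∞ :=
  ⨆ (k : ℕ) (_ : 1 ≤ k ∧ ∃ a₁ a₂, 1 ≤ a₁ ∧ 1 ≤ a₂ ∧ w p.1 p.2 a₁ a₂ k = n), (k : ℕ∞)

noncomputable def γ (p : ℕ × ℕ) : ℝ := (p.1 + √(p.1 ^ 2 + 4 * p.2)) / 2

def x : ℕ → ℕ × ℕ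
  | 0 => (1, 3)
  | t + 1 => (2 * (x t).1 + (x t).2, 3 * (x t).1 + 3 * (x t).2)

lemma x_pos (t : ℕ) : 1 ≤ (x t).1 := by
  induction t with
  | zero => simp [x]
  | succ t ih => simp only [x]; omega

lemma delta (p q k : ℕ) : 2 * w 4 9 (2 * p + q) (2 * p + q + 2 * (3 * p + 3 * q)) (k + 1) =
    w 4 9 p (p + 2 * q) (k + 2) + 3 * w 4 9 p (p + 2 * q) (k + 1) := by
  induction k using Nat.twoStepInduction with
  | zero => simp only [w]; omega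
  | one => simp only [w]; omega
  | more k h1 h2 =>
    simp only [w, add_assoc, Nat.reduceAdd] at h1 h2 ⊢
    omega

lemma key (t : ℕ) : w 4 9 (x t).1 ((x t).1 + 2 * (x t).2) (t + 5) = w 23 27 1 1 (t + 4) := by
  induction t using Nat.twoStepInduction with
  | zero => rfl
  | one => rfl
  | more t h1 h2 =>
    have a1 := delta (x t).1 (x t).2 (t + 5)
    have a2 := delta (x t).1 (x t).2 (t + 6)
    have a3 := delta (x t).1 (x t).2 (t + 7)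
    have a4 := delta (x (t + 1)).1 (x (t + 1)).2 (t + 6)
    have e : w 23 27 1 1 (t + 2 + 4) = 23 * w 23 27 1 1 (t + 1 + 4) + 27 * w 23 27 1 1 (t + 4) := rfl
    have b : ∀ k, w 4 9 (x t).1 ((x t).1 + 2 * (x t).2) (k + 3) =
      4 * w 4 9 (x t).1 ((x t).1 + 2 * (x t).2) (k + 2) +
        9 * w 4 9 (x t).1 ((x t).1 + 2 * (x t).2) (k + 1) := fun _ => rfl
    have b1 := b (t + 4)
    have b2 := b (t + 5)
    have b3 := b (t + 6)
    rw [e, ← h1, ← h2]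
    simp only [x, add_assoc, Nat.reduceAdd] at *
    omega

lemma g_eq (t : ℕ) :
    w 23 27 1 23 (t + 2) + 27 * w 23 27 1 23 (t + 1) = w 23 27 1 1 (t + 3) := by
  induction t using Nat.twoStepInduction with
  | zero => rfl
  | one => rfl
  | more t h1 h2 =>
    simp only [w, add_assoc, Nat.reduceAdd] at h1 h2 ⊢
    omega

lemma w_ge (a b : ℕ) (ha : 1 ≤ a) (hb : 1 ≤ b) (k : ℕ) :
    w 23 27 1 1 (k + 1) ≤ w 23 27 a b (k + 1) ∧ 1 ≤ w 23 27 1 1 (k + 1) := by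
  induction k using Nat.twoStepInduction with
  | zero => exact ⟨ha, le_rfl⟩
  | one => exact ⟨hb, le_rfl⟩
  | more k h1 h2 =>
    simp only [w, add_assoc, Nat.reduceAdd] at h1 h2 ⊢
    omega

lemma w_mono : StrictMono fun k => w 23 27 1 1 (k + 2) := strictMono_nat_of_lt_succ fun k => by
  have := (w_ge 1 1 le_rfl le_rfl k).2
  simp only [w]
  omega

theorem result :
    ∃ T : Set (ℕ × ℕ), (∀ p ∈ T, 1 ≤ p.1 ∧ 1 ≤ p.2 ∧ Nat.Coprime p.1 p.2) ∧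
      ∃ p ∈ T, ∃ Γ : ℝ, IsLeast (γ '' T) Γ ∧ γ p < Γ ^ 2 ∧
        {t : ℕ | 2 ≤ t ∧ ∀ q ∈ T,
          s q (w p.1 p.2 1 p.1 t + p.2 * w p.1 p.2 1 p.1 (t - 1)) ≤
            s p (w p.1 p.2 1 p.1 t + p.2 * w p.1 p.2 1 p.1 (t - 1))}.Finite := by
  have h1 : 5 ≤ γ (4, 9) ∧ γ (4, 9) ≤ 6 := by
    have a : (6 : ℝ) ≤ √((4 : ℕ) ^ 2 + 4 * (9 : ℕ)) := Real.le_sqrt_of_sq_le (by norm_num)
    have b : √((4 : ℕ) ^ 2 + 4 * (9 : ℕ)) ≤ (8 : ℝ) := Real.sqrt_le_iff.mpr (by norm_num)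
    simp only [γ]
    generalize √(_ + _) = y at a b ⊢
    push_cast
    constructor <;> linarith
  have h2 : 6 ≤ γ (23, 27) ∧ γ (23, 27) < 25 := by
    have a : (0 : ℝ) ≤ √((23 : ℕ) ^ 2 + 4 * (27 : ℕ)) := Real.sqrt_nonneg _
    have b : √((23 : ℕ) ^ 2 + 4 * (27 : ℕ)) ≤ (26 : ℝ) := Real.sqrt_le_iff.mpr (by norm_num)
    simp only [γ]
    generalize √(_ + _) = y at a b ⊢
    push_cast
    constructor <;> linarith
  refine ⟨{(23, 27), (4, 9)}, ?_, (23, 27), by simp, γ (4, 9), ⟨⟨_, by simp, rfl⟩, ?_⟩,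
    by nlinarith, (Set.finite_singleton 2).subset fun t ht => ?_⟩
  · rintro p (rfl | rfl) <;> decide
  · rintro _ ⟨p, rfl | rfl, rfl⟩
    · linarith
    · exact le_rfl
  · obtain ⟨h2t, ht⟩ := ht
    by_contra hne
    obtain ⟨t, rfl⟩ : ∃ u, t = u + 3 := ⟨t - 3, by simp at hne; omega⟩
    have h := ht (4, 9) (by simp)
    simp only [show t + 3 - 1 = t + 1 + 1 from rfl, show t + 3 = t + 1 + 2 from rfl, g_eq] at h
    have lo : ((t + 5 : ℕ) : ℕ∞) ≤ s (4, 9) (w 23 27 1 1 (t + 1 + 3)) :=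
      le_iSup₂_of_le (t + 5) ⟨by omega, (x t).1, (x t).1 + 2 * (x t).2, x_pos t,
        by have := x_pos t; omega, key t⟩ le_rfl
    have hi : s (23, 27) (w 23 27 1 1 (t + 1 + 3)) ≤ ((t + 4 : ℕ) : ℕ∞) := by
      refine iSup₂_le fun k ⟨_, a, b, ha, hb, hk⟩ => ?_
      by_contra hc
      have hc' : t + 4 < k := by exact_mod_cast not_le.mp hc
      obtain ⟨k, rfl⟩ : ∃ j, k = j + 2 := ⟨k - 2, by omega⟩
      have c1 := (w_ge a b ha hb (k + 1)).1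
      have c2 := w_mono (show t + 2 < k by omega)
      simp only [add_assoc, Nat.reduceAdd] at *
      omega
    have := (lo.trans h).trans hi
    have : t + 5 ≤ t + 4 := by exact_mod_cast this
    omega

end Pool.Agent.Results.MP_1596c6_nt.Slow
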